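import Pool.Agent.Lib_helper31.G5T.Alg
import Pool.Agent.Lib_helper61.G5T.Poly

/-!
# MP_022ed3_co, module TYPES, part 2: `PAIR(a)` and `S1DATA(a)`
-/

set_option autoImplicit false

namespace Pool.Agent.G5.Tri.TP

open Pool.Agent.G5.Lower Pool.Agent.G5.Planar Pool.Agent.G5.Core Pool.Agent.G5.Quad
  Pool.Agent.G5.Frame

/-- `v1 .. v5` is the hull of `T`, counterclockwise -/
structure P5 (s : ℝ) (T : Finset (ℝ × ℝ)) (v1 v2 v3 v4 v5 : ℝ × ℝ) : Prop where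
  h1 : v1 ∈ T
  h2 : v2 ∈ T
  h3 : v3 ∈ T
  h4 : v4 ∈ T
  h5 : v5 ∈ T
  nd : [v1, v2, v3, v4, v5].Nodup
  e1 : ∀ t ∈ T, t ≠ v1 → t ≠ v2 → 0 < D s v1 v2 t
  e2 : ∀ t ∈ T, t ≠ v2 → t ≠ v3 → 0 < D s v2 v3 t
  e3 : ∀ t ∈ T, t ≠ v3 → t ≠ v4 → 0 < D s v3 v4 t
  e4 : ∀ t ∈ T, t ≠ v4 → t ≠ v5 → 0 < D s v4 v5 t
  e5 : ∀ t ∈ T, t ≠ v5 → t ≠ v1 → 0 < D s v5 v1 t

/-- `v1 .. v6` is the hull of `T`, counterclockwise -/
structure P6 (s : ℝ) (T : Finset (ℝ × ℝ)) (v1 v2 v3 v4 v5 v6 : ℝ × ℝ) : Prop where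
  h1 : v1 ∈ T
  h2 : v2 ∈ T
  h3 : v3 ∈ T
  h4 : v4 ∈ T
  h5 : v5 ∈ T
  h6 : v6 ∈ T
  nd : [v1, v2, v3, v4, v5, v6].Nodup
  e1 : ∀ t ∈ T, t ≠ v1 → t ≠ v2 → 0 < D s v1 v2 t
  e2 : ∀ t ∈ T, t ≠ v2 → t ≠ v3 → 0 < D s v2 v3 t
  e3 : ∀ t ∈ T, t ≠ v3 → t ≠ v4 → 0 < D s v3 v4 t
  e4 : ∀ t ∈ T, t ≠ v4 → t ≠ v5 → 0 < D s v4 v5 t
  e5 : ∀ t ∈ T, t ≠ v5 → t ≠ v6 → 0 < D s v5 v6 t
  e6 : ∀ t ∈ T, t ≠ v6 → t ≠ v1 → 0 < D s v6 v1 t

section poly

variable {s : ℝ} {m : ℕ} {P T A B C : Finset (ℝ × ℝ)} {a b c p q p' q' z : ℝ × ℝ}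
  {v1 v2 v3 v4 v5 v6 : ℝ × ℝ}

lemma P5.rot (h : P5 s T v1 v2 v3 v4 v5) : P5 s T v2 v3 v4 v5 v1 :=
  ⟨h.h2, h.h3, h.h4, h.h5, h.h1, by
    have := h.nd
    simp only [List.nodup_cons, List.mem_cons, List.not_mem_nil, or_false, not_or] at this ⊢
    tauto, h.e2, h.e3, h.e4, h.e5, h.e1⟩

/-- mirror image fixing `v2` -/
lemma P5.mir (h : P5 s T v1 v2 v3 v4 v5) : P5 (-s) T v3 v2 v1 v5 v4 :=
  ⟨h.h3, h.h2, h.h1, h.h5, h.h4, by
    have := h.nd
    simp only [List.nodup_cons, List.mem_cons, List.not_mem_nil, or_false, not_or] at this ⊢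
    tauto,
    fun t ht h1 h2 => by have := h.e2 t ht h2 h1; rw [D_neg, D_swap]; linarith,
    fun t ht h1 h2 => by have := h.e1 t ht h2 h1; rw [D_neg, D_swap]; linarith,
    fun t ht h1 h2 => by have := h.e5 t ht h2 h1; rw [D_neg, D_swap]; linarith,
    fun t ht h1 h2 => by have := h.e4 t ht h2 h1; rw [D_neg, D_swap]; linarith,
    fun t ht h1 h2 => by have := h.e3 t ht h2 h1; rw [D_neg, D_swap]; linarith⟩

lemma P6.rot (h : P6 s T v1 v2 v3 v4 v5 v6) : P6 s T v2 v3 v4 v5 v6 v1 :=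
  ⟨h.h2, h.h3, h.h4, h.h5, h.h6, h.h1, by
    have := h.nd
    simp only [List.nodup_cons, List.mem_cons, List.not_mem_nil, or_false, not_or] at this ⊢
    tauto, h.e2, h.e3, h.e4, h.e5, h.e6, h.e1⟩

/-- distinctness of the vertices -/
lemma P5.ne (h : P5 s T v1 v2 v3 v4 v5) : v1 ≠ v2 ∧ v1 ≠ v3 ∧ v1 ≠ v4 ∧ v1 ≠ v5 ∧ v2 ≠ v3 ∧
    v2 ≠ v4 ∧ v2 ≠ v5 ∧ v3 ≠ v4 ∧ v3 ≠ v5 ∧ v4 ≠ v5 := by
  have := h.nd
  simp only [List.nodup_cons, List.mem_cons, List.not_mem_nil, or_false, not_or] at this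
  tauto

lemma P6.ne (h : P6 s T v1 v2 v3 v4 v5 v6) : v1 ≠ v2 ∧ v1 ≠ v3 ∧ v1 ≠ v4 ∧ v1 ≠ v5 ∧ v1 ≠ v6 ∧
    v2 ≠ v3 ∧ v2 ≠ v4 ∧ v2 ≠ v5 ∧ v2 ≠ v6 ∧ v3 ≠ v4 ∧ v3 ≠ v5 ∧ v3 ≠ v6 ∧ v4 ≠ v5 ∧ v4 ≠ v6 ∧
    v5 ≠ v6 := by
  have := h.nd
  simp only [List.nodup_cons, List.mem_cons, List.not_mem_nil, or_false, not_or] at this
  tauto

/-- (t1): two disjoint edges are not both invisible -/
lemma t1 (h : Setting s m P a b c) (hT : InF m P T) (hz : z ∈ P) (hzT : z ∉ T)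
    (hp : p ∈ T) (hq : q ∈ T) (hp' : p' ∈ T) (hq' : q' ∈ T) (hnd : [p, q, p', q'].Nodup)
    (e : ∀ t ∈ T, t ≠ p → t ≠ q → 0 < D s p q t)
    (e' : ∀ t ∈ T, t ≠ p' → t ≠ q' → 0 < D s p' q' t)
    (h1 : 0 < D s p q z) (h2 : 0 < D s p' q' z) : False := by
  have hne : p ≠ q ∧ p' ≠ q' := by
    simp only [List.nodup_cons, List.mem_cons, List.not_mem_nil, or_false, not_or] at hnd
    tauto
  have hnz : z ≠ p ∧ z ≠ q ∧ z ≠ p' ∧ z ≠ q' := by
    refine ⟨?_, ?_, ?_, ?_⟩ <;> rintro rfl <;> contradiction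
  have g1 : ∀ w ∈ insert z T, w ≠ p → w ≠ q → 0 < D s p q w := by
    intro w hw a1 a2
    rcases Finset.mem_insert.1 hw with rfl | hw
    · exact h1
    · exact e w hw a1 a2
  have g2 : ∀ w ∈ insert z T, w ≠ p' → w ≠ q' → 0 < D s p' q' w := by
    intro w hw a1 a2
    rcases Finset.mem_insert.1 hw with rfl | hw
    · exact h2
    · exact e' w hw a1 a2
  have mi : ∀ {w}, w ∈ T → w ∈ insert z T := fun hw => Finset.mem_insert_of_mem hw
  refine h.thin.five (S := insert z T) (Finset.insert_subset hz hT.sub)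
    (by rw [Finset.card_insert_of_notMem hzT, hT.card]) (hT.closed z hz hzT)
    (edge_ext (mi hp) (mi hq) hne.1 g1) (edge_ext' (mi hp) (mi hq) hne.1 g1)
    (edge_ext (mi hp') (mi hq') hne.2 g2) (edge_ext' (mi hp') (mi hq') hne.2 g2) ?_
  rw [List.nodup_cons]
  refine ⟨?_, hnd⟩
  simp only [List.mem_cons, List.not_mem_nil, or_false, not_or]
  exact hnz

/-- signs are decided -/
lemma Dneg (h : Setting s m P a b c) (hT : InF m P T) (hz : z ∈ P) (hzT : z ∉ T)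
    (hp : p ∈ T) (hq : q ∈ T) (hpq : p ≠ q) (hn : ¬ 0 < D s p q z) : D s p q z < 0 := by
  refine lt_of_le_of_ne (not_lt.1 hn) ?_
  apply h.conf.gen.D_ne h.conf.hs (hT.sub hp) (hT.sub hq) hz hpq
  · rintro rfl; contradiction
  · rintro rfl; contradiction

/-- the possible signs of a point outside `T` with respect to the pentagon -/
structure Sg5 (s : ℝ) (v1 v2 v3 v4 v5 z : ℝ × ℝ) : Prop where
  s1 : ¬ 0 < D s v1 v2 z → D s v1 v2 z < 0
  s2 : ¬ 0 < D s v2 v3 z → D s v2 v3 z < 0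
  s3 : ¬ 0 < D s v3 v4 z → D s v3 v4 z < 0
  s4 : ¬ 0 < D s v4 v5 z → D s v4 v5 z < 0
  s5 : ¬ 0 < D s v5 v1 z → D s v5 v1 z < 0
  n13 : 0 < D s v1 v2 z → ¬ 0 < D s v3 v4 z
  n14 : 0 < D s v1 v2 z → ¬ 0 < D s v4 v5 z
  n24 : 0 < D s v2 v3 z → ¬ 0 < D s v4 v5 z
  n25 : 0 < D s v2 v3 z → ¬ 0 < D s v5 v1 z
  n35 : 0 < D s v3 v4 z → ¬ 0 < D s v5 v1 z
  some : 0 < D s v1 v2 z ∨ 0 < D s v2 v3 z ∨ 0 < D s v3 v4 z ∨ 0 < D s v4 v5 z ∨ 0 < D s v5 v1 z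

lemma P5.sg (hp : P5 s T v1 v2 v3 v4 v5) (h : Setting s m P a b c) (hT : InF m P T)
    (hz : z ∈ P) (hzT : z ∉ T) : Sg5 s v1 v2 v3 v4 v5 z := by
  obtain ⟨n12, n13, n14, n15, n23, n24, n25, n34, n35, n45⟩ := hp.ne
  have hT' := hT
  refine ⟨Dneg h hT hz hzT hp.h1 hp.h2 n12, Dneg h hT hz hzT hp.h2 hp.h3 n23,
    Dneg h hT hz hzT hp.h3 hp.h4 n34, Dneg h hT hz hzT hp.h4 hp.h5 n45,
    Dneg h hT hz hzT hp.h5 hp.h1 n15.symm, ?_, ?_, ?_, ?_, ?_, ?_⟩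
  · intro a1 a2
    exact t1 h hT hz hzT hp.h1 hp.h2 hp.h3 hp.h4 (by simp [*]) hp.e1 hp.e3 a1 a2
  · intro a1 a2
    exact t1 h hT hz hzT hp.h1 hp.h2 hp.h4 hp.h5 (by simp [*]) hp.e1 hp.e4 a1 a2
  · intro a1 a2
    exact t1 h hT hz hzT hp.h2 hp.h3 hp.h4 hp.h5 (by simp [*]) hp.e2 hp.e4 a1 a2
  · intro a1 a2
    exact t1 h hT hz hzT hp.h2 hp.h3 hp.h5 hp.h1 (by simp [*, n12.symm, n13.symm, n15.symm])
      hp.e2 hp.e5 a1 a2
  · intro a1 a2
    exact t1 h hT hz hzT hp.h3 hp.h4 hp.h5 hp.h1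
      (by simp [*, n14.symm, n13.symm, n15.symm]) hp.e3 hp.e5 a1 a2
  · by_contra hcon
    push Not at hcon
    obtain ⟨c1, c2, c3, c4, c5⟩ := hcon
    have e : D s v1 v2 z + D s v2 v3 z + D s v3 v4 z + D s v4 v5 z + D s v5 v1 z =
        D s v1 v2 v3 + D s v3 v4 v1 + D s v4 v5 v1 := by
      simp only [D, dt]; ring
    have k1 := hp.e1 v3 hp.h3 n13.symm n23.symm
    have k2 := hp.e3 v1 hp.h1 n13 n14
    have k3 := hp.e4 v1 hp.h1 n14 n15
    linarith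

/-- the possible signs of a point outside `T` with respect to the hexagon -/
structure Sg6 (s : ℝ) (v1 v2 v3 v4 v5 v6 z : ℝ × ℝ) : Prop where
  s1 : ¬ 0 < D s v1 v2 z → D s v1 v2 z < 0
  s2 : ¬ 0 < D s v2 v3 z → D s v2 v3 z < 0
  s3 : ¬ 0 < D s v3 v4 z → D s v3 v4 z < 0
  s4 : ¬ 0 < D s v4 v5 z → D s v4 v5 z < 0
  s5 : ¬ 0 < D s v5 v6 z → D s v5 v6 z < 0
  s6 : ¬ 0 < D s v6 v1 z → D s v6 v1 z < 0
  n13 : 0 < D s v1 v2 z → ¬ 0 < D s v3 v4 z
  n14 : 0 < D s v1 v2 z → ¬ 0 < D s v4 v5 z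
  n15 : 0 < D s v1 v2 z → ¬ 0 < D s v5 v6 z
  n24 : 0 < D s v2 v3 z → ¬ 0 < D s v4 v5 z
  n25 : 0 < D s v2 v3 z → ¬ 0 < D s v5 v6 z
  n26 : 0 < D s v2 v3 z → ¬ 0 < D s v6 v1 z
  n35 : 0 < D s v3 v4 z → ¬ 0 < D s v5 v6 z
  n36 : 0 < D s v3 v4 z → ¬ 0 < D s v6 v1 z
  n46 : 0 < D s v4 v5 z → ¬ 0 < D s v6 v1 z

lemma P6.sg (hp : P6 s T v1 v2 v3 v4 v5 v6) (h : Setting s m P a b c) (hT : InF m P T)
    (hz : z ∈ P) (hzT : z ∉ T) : Sg6 s v1 v2 v3 v4 v5 v6 z := by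
  obtain ⟨n12, n13, n14, n15, n16, n23, n24, n25, n26, n34, n35, n36, n45, n46, n56⟩ := hp.ne
  refine ⟨Dneg h hT hz hzT hp.h1 hp.h2 n12, Dneg h hT hz hzT hp.h2 hp.h3 n23,
    Dneg h hT hz hzT hp.h3 hp.h4 n34, Dneg h hT hz hzT hp.h4 hp.h5 n45,
    Dneg h hT hz hzT hp.h5 hp.h6 n56, Dneg h hT hz hzT hp.h6 hp.h1 n16.symm,
    ?_, ?_, ?_, ?_, ?_, ?_, ?_, ?_, ?_⟩
  · intro a1 a2
    exact t1 h hT hz hzT hp.h1 hp.h2 hp.h3 hp.h4 (by simp [*]) hp.e1 hp.e3 a1 a2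
  · intro a1 a2
    exact t1 h hT hz hzT hp.h1 hp.h2 hp.h4 hp.h5 (by simp [*]) hp.e1 hp.e4 a1 a2
  · intro a1 a2
    exact t1 h hT hz hzT hp.h1 hp.h2 hp.h5 hp.h6 (by simp [*]) hp.e1 hp.e5 a1 a2
  · intro a1 a2
    exact t1 h hT hz hzT hp.h2 hp.h3 hp.h4 hp.h5 (by simp [*]) hp.e2 hp.e4 a1 a2
  · intro a1 a2
    exact t1 h hT hz hzT hp.h2 hp.h3 hp.h5 hp.h6 (by simp [*]) hp.e2 hp.e5 a1 a2
  · intro a1 a2
    exact t1 h hT hz hzT hp.h2 hp.h3 hp.h6 hp.h1 (by simp [*, n12.symm, n13.symm, n16.symm])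
      hp.e2 hp.e6 a1 a2
  · intro a1 a2
    exact t1 h hT hz hzT hp.h3 hp.h4 hp.h5 hp.h6 (by simp [*]) hp.e3 hp.e5 a1 a2
  · intro a1 a2
    exact t1 h hT hz hzT hp.h3 hp.h4 hp.h6 hp.h1 (by simp [*, n14.symm, n13.symm, n16.symm])
      hp.e3 hp.e6 a1 a2
  · intro a1 a2
    exact t1 h hT hz hzT hp.h4 hp.h5 hp.h6 hp.h1 (by simp [*, n14.symm, n15.symm, n16.symm])
      hp.e4 hp.e6 a1 a2

end poly

section tri

variable {s : ℝ} {m : ℕ} {P T A B C : Finset (ℝ × ℝ)} {a b c x y z t : ℝ × ℝ}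

lemma cls_mem (h : Cls s m P T A B C a b c) : (∀ z ∈ A, z ∈ P ∧ z ∉ T) ∧
    (∀ z ∈ B, z ∈ P ∧ z ∉ T) ∧ (∀ z ∈ C, z ∈ P ∧ z ∉ T) :=
  ⟨fun z hz => ⟨h.subA hz, fun hT => Finset.disjoint_left.1 h.TA hT hz⟩,
    fun z hz => ⟨h.subB hz, fun hT => Finset.disjoint_left.1 h.TB hT hz⟩,
    fun z hz => ⟨h.subC hz, fun hT => Finset.disjoint_left.1 h.TC hT hz⟩⟩

/-- `T` is inside the triangle `a b c` -/
lemma inT (h : Cls s m P T A B C a b c) (ht : t ∈ T) :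
    0 < D s a b t ∧ 0 < D s b c t ∧ 0 < D s c a t := by
  have ha := (cls_mem h).1 a h.aA
  have hb := (cls_mem h).2.1 b h.bB
  have hc := (cls_mem h).2.2 c h.cC
  have na : t ≠ a := by rintro rfl; exact ha.2 ht
  have nb : t ≠ b := by rintro rfl; exact hb.2 ht
  have nc : t ≠ c := by rintro rfl; exact hc.2 ht
  exact ⟨h.set.conf.eab t (h.subT ht) na nb, h.set.conf.ebc t (h.subT ht) nb nc,
    h.set.conf.eca t (h.subT ht) nc na⟩

/-- (t5) for `x ∈ B` -/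
lemma inB (h : Cls s m P T A B C a b c) (hx : x ∈ B) (ht : t ∈ T) :
    0 < D s a x t ∧ 0 < D s x c t ∧ 0 < D s c a t := by
  obtain ⟨h1, h2⟩ := h.nearB x hx t ht
  refine ⟨?_, ?_, (inT h ht).2.2⟩
  · rw [D_swap'] at h2; linarith
  · rw [← D_cyc]; exact h1

/-- (t5) for `y ∈ C` -/
lemma inC (h : Cls s m P T A B C a b c) (hy : y ∈ C) (ht : t ∈ T) :
    0 < D s a b t ∧ 0 < D s b y t ∧ 0 < D s y a t := by
  obtain ⟨h1, h2⟩ := h.nearC y hy t ht
  refine ⟨(inT h ht).1, ?_, ?_⟩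
  · rw [D_swap'] at h2; linarith
  · rw [← D_cyc]; exact h1

/-- (t5) for `z ∈ A` -/
lemma inA (h : Cls s m P T A B C a b c) (hz : z ∈ A) (ht : t ∈ T) :
    0 < D s z b t ∧ 0 < D s b c t ∧ 0 < D s c z t := by
  obtain ⟨h1, h2⟩ := h.nearA z hz t ht
  refine ⟨?_, (inT h ht).2.1, ?_⟩
  · rw [← D_cyc]; exact h1
  · rw [D_swap'] at h2; linarith

/-- FIVE data at `a` -/
def FiveAt (s : ℝ) (T A B C : Finset (ℝ × ℝ)) (a b c : ℝ × ℝ) : Prop :=
  ∃ E1 E2 E3 E5 v1 v2 v3 v4 v5, B = E5 ∪ E1 ∧ C = E2 ∪ E3 ∧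
    FiveD s T E1 E2 E3 A E5 a b c v1 v2 v3 v4 v5

/-- the conclusion -/
def Concl (s : ℝ) (T A B C : Finset (ℝ × ℝ)) (a b c : ℝ × ℝ) : Prop :=
  FiveAt s T A B C a b c ∨
    ((∃ p q, EdgeR s T (B ∪ C) p q) ∧
      (A = {a} → (∃ v L R τ h, S1D s T B C a b c v L R τ h) ∨
        (∃ v L R τ h, S1D (-s) T C B a c b v L R τ h)))

end tri

section cases

variable {s : ℝ} {m : ℕ} {P T A B C : Finset (ℝ × ℝ)} {a b c : ℝ × ℝ}
  {v1 v2 v3 v4 v5 v6 : ℝ × ℝ}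

/-- `k = 5`, `I_a = {1}` -/
lemma case51 (h : Cls s m P T A B C a b c) (hT : InF m P T) (hp : P5 s T v1 v2 v3 v4 v5)
    (a1 : 0 < D s v1 v2 a) (a2 : D s v2 v3 a < 0) (a3 : D s v3 v4 a < 0)
    (a4 : D s v4 v5 a < 0) (a5 : D s v5 v1 a < 0) : Concl s T A B C a b c := by
  obtain ⟨n12, n13, n14, n15, n23, n24, n25, n34, n35, n45⟩ := hp.ne
  obtain ⟨mA, mB, mC⟩ := cls_mem h
  have sg : ∀ {z}, z ∈ P ∧ z ∉ T → Sg5 s v1 v2 v3 v4 v5 z := fun hz => hp.sg h.set hT hz.1 hz.2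
  have k2 : 0 < D s v1 v2 v3 := hp.e1 v3 hp.h3 n13.symm n23.symm
  have k1 : 0 < D s v5 v1 v2 := hp.e5 v2 hp.h2 n25 n12.symm
  -- covering
  have cov : ∀ {x1 x2 : ℝ × ℝ}, (∀ t ∈ T, 0 < D s a x1 t ∧ 0 < D s x1 x2 t ∧ 0 < D s x2 a t) →
      (0 < D s v2 v3 x1 ∨ 0 < D s v2 v3 x2) ∧ (0 < D s v3 v4 x1 ∨ 0 < D s v3 v4 x2) ∧
      (0 < D s v4 v5 x1 ∨ 0 < D s v4 v5 x2) ∧ (0 < D s v5 v1 x1 ∨ 0 < D s v5 v1 x2) := by
    intro x1 x2 hx
    have g := fun t ht => hx t ht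
    refine ⟨?_, ?_, ?_, ?_⟩
    · obtain ⟨g1, g2, g3⟩ := hx v1 hp.h1
      rcases t3 g1 g2 g3 (hp.e2 v1 hp.h1 n12 n13) with r | r | r
      · linarith
      · exact Or.inl r
      · exact Or.inr r
    · obtain ⟨g1, g2, g3⟩ := hx v1 hp.h1
      rcases t3 g1 g2 g3 (hp.e3 v1 hp.h1 n13 n14) with r | r | r
      · linarith
      · exact Or.inl r
      · exact Or.inr r
    · obtain ⟨g1, g2, g3⟩ := hx v1 hp.h1
      rcases t3 g1 g2 g3 (hp.e4 v1 hp.h1 n14 n15) with r | r | r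
      · linarith
      · exact Or.inl r
      · exact Or.inr r
    · obtain ⟨g1, g2, g3⟩ := hx v3 hp.h3
      rcases t3 g1 g2 g3 (hp.e5 v3 hp.h3 n35 n13.symm) with r | r | r
      · linarith
      · exact Or.inl r
      · exact Or.inr r
  have hB : ∀ x ∈ B, D s v1 v2 x < 0 ∧ 0 < D s v2 v3 x ∧ 0 < D s v3 v4 x ∧ D s v4 v5 x < 0 ∧
      D s v5 v1 x < 0 := by
    intro x hx
    obtain ⟨q2, q3, q4, q5⟩ := cov (x1 := x) (x2 := c) (fun t ht => inB h hx ht)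
    have sx := sg (mB x hx)
    have sc := sg (mC c h.cC)
    have o : ¬ (D s v1 v2 x < 0 ∧ D s v2 v3 x < 0) := fun hh =>
      ori1 k2 (inB h hx hp.h2).1 a1 a2 hh.1 hh.2
    have r2 : 0 < D s v2 v3 x := by
      by_contra hcon
      have hx1 : 0 < D s v1 v2 x := by
        by_contra hcon2
        exact o ⟨sx.s1 hcon2, sx.s2 hcon⟩
      exact sc.n24 (q2.resolve_left hcon) (q4.resolve_left (sx.n14 hx1))
    have c5 := q5.resolve_left (sx.n25 r2)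
    have r3 : 0 < D s v3 v4 x := q3.resolve_right (fun h3 => sc.n35 h3 c5)
    exact ⟨sx.s1 (fun h1 => sx.n13 h1 r3), r2, r3, sx.s4 (sx.n24 r2), sx.s5 (sx.n25 r2)⟩
  have hC : ∀ y ∈ C, D s v1 v2 y < 0 ∧ D s v2 v3 y < 0 ∧ D s v3 v4 y < 0 ∧ 0 < D s v4 v5 y ∧
      0 < D s v5 v1 y := by
    intro y hy
    have hb := hB b h.bB
    have sy := sg (mC y hy)
    obtain ⟨q2, q3, q4, q5⟩ := cov (x1 := b) (x2 := y) (fun t ht => inC h hy ht)
    have r4 : 0 < D s v4 v5 y := by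
      rcases q4 with q | q
      · linarith [hb.2.2.2.1]
      · exact q
    have r5 : 0 < D s v5 v1 y := by
      rcases q5 with q | q
      · linarith [hb.2.2.2.2]
      · exact q
    exact ⟨sy.s1 (fun h1 => sy.n14 h1 r4), sy.s2 (fun h1 => sy.n25 h1 r5),
      sy.s3 (fun h1 => sy.n35 h1 r5), r4, r5⟩
  refine Or.inr ⟨⟨v1, v2, hp.h1, hp.h2, n12, hp.e1, ?_⟩, ?_⟩
  · intro z hz
    rcases Finset.mem_union.1 hz with hz | hz
    · exact (hB z hz).1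
    · exact (hC z hz).1
  · intro _
    refine Or.inl ⟨v1, v1, v2, v4, v3, ?_⟩
    exact {
      hv := hp.h1
      hL := hp.h1
      hR := hp.h2
      hτ := hp.h4
      hh := hp.h3
      vmin := fun t ht hne => tan2 hp.h5 hp.h2 n25.symm n15.symm n12.symm hp.e5 hp.e1 a5 a1 ht hne
      Rmax := fun t ht hne => by
        have := tan1 hp.h1 hp.h3 n13 n12 n23.symm hp.e1 hp.e2 a1 a2 ht hne
        rw [D_swap']; linarith
      LR := n12
      eLR := hp.e1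
      rB := fun z hz => (hB z hz).1
      rC := fun z hz => (hC z hz).1
      vL := Or.inl rfl
      τv := n14.symm
      τmax := fun t ht hne => by
        have hb := hB b h.bB
        have := tan1 hp.h3 hp.h5 n35 n34 n45.symm hp.e3 hp.e4 hb.2.2.1 hb.2.2.2.1 ht hne
        rw [D_swap']; linarith
      τtan := fun x hx _ t ht hne => by
        have hb := hB x hx
        exact tan1 hp.h3 hp.h5 n35 n34 n45.symm hp.e3 hp.e4 hb.2.2.1 hb.2.2.2.1 ht hne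
      hR' := n23.symm
      hC := fun y hy => (hC y hy).2.1
      hga := by
        have := (hC c h.cC).2.1
        rw [D_cyc']; exact this }

/-- `k = 6`, `1, 2` in `I_a` -/
lemma case6 (h : Cls s m P T A B C a b c) (hT : InF m P T) (hp : P6 s T v1 v2 v3 v4 v5 v6)
    (a1 : 0 < D s v1 v2 a) (a2 : 0 < D s v2 v3 a) : Concl s T A B C a b c := by
  obtain ⟨n12, n13, n14, n15, n16, n23, n24, n25, n26, n34, n35, n36, n45, n46, n56⟩ := hp.ne
  obtain ⟨mA, mB, mC⟩ := cls_mem h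
  have sg : ∀ {z}, z ∈ P ∧ z ∉ T → Sg6 s v1 v2 v3 v4 v5 v6 z :=
    fun hz => hp.sg h.set hT hz.1 hz.2
  have sa := sg (mA a h.aA)
  have a3 : D s v3 v4 a < 0 := sa.s3 (sa.n13 a1)
  have a4 : D s v4 v5 a < 0 := sa.s4 (sa.n14 a1)
  have a5 : D s v5 v6 a < 0 := sa.s5 (sa.n15 a1)
  have a6 : D s v6 v1 a < 0 := sa.s6 (sa.n26 a2)
  have k3 : 0 < D s v2 v3 v4 := hp.e2 v4 hp.h4 n24.symm n34.symm
  -- covering
  have cov : ∀ {x1 x2 : ℝ × ℝ}, (∀ t ∈ T, 0 < D s a x1 t ∧ 0 < D s x1 x2 t ∧ 0 < D s x2 a t) →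
      (0 < D s v3 v4 x1 ∨ 0 < D s v3 v4 x2) ∧ (0 < D s v4 v5 x1 ∨ 0 < D s v4 v5 x2) ∧
      (0 < D s v5 v6 x1 ∨ 0 < D s v5 v6 x2) ∧ (0 < D s v6 v1 x1 ∨ 0 < D s v6 v1 x2) := by
    intro x1 x2 hx
    refine ⟨?_, ?_, ?_, ?_⟩
    · obtain ⟨g1, g2, g3⟩ := hx v1 hp.h1
      rcases t3 g1 g2 g3 (hp.e3 v1 hp.h1 n13 n14) with r | r | r
      · linarith
      · exact Or.inl r
      · exact Or.inr r
    · obtain ⟨g1, g2, g3⟩ := hx v1 hp.h1
      rcases t3 g1 g2 g3 (hp.e4 v1 hp.h1 n14 n15) with r | r | r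
      · linarith
      · exact Or.inl r
      · exact Or.inr r
    · obtain ⟨g1, g2, g3⟩ := hx v1 hp.h1
      rcases t3 g1 g2 g3 (hp.e5 v1 hp.h1 n15 n16) with r | r | r
      · linarith
      · exact Or.inl r
      · exact Or.inr r
    · obtain ⟨g1, g2, g3⟩ := hx v3 hp.h3
      rcases t3 g1 g2 g3 (hp.e6 v3 hp.h3 n36 n13.symm) with r | r | r
      · linarith
      · exact Or.inl r
      · exact Or.inr r
  have hB : ∀ x ∈ B, D s v1 v2 x < 0 ∧ D s v2 v3 x < 0 ∧ 0 < D s v3 v4 x ∧ 0 < D s v4 v5 x ∧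
      D s v5 v6 x < 0 ∧ D s v6 v1 x < 0 := by
    intro x hx
    obtain ⟨q3, q4, q5, q6⟩ := cov (x1 := x) (x2 := c) (fun t ht => inB h hx ht)
    have sx := sg (mB x hx)
    have sc := sg (mC c h.cC)
    have o : ¬ (D s v2 v3 x < 0 ∧ D s v3 v4 x < 0) := fun hh =>
      ori1 k3 (inB h hx hp.h3).1 a2 a3 hh.1 hh.2
    have r3 : 0 < D s v3 v4 x := by
      by_contra hcon
      have hx2 : 0 < D s v2 v3 x := by
        by_contra hcon2
        exact o ⟨sx.s2 hcon2, sx.s3 hcon⟩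
      exact sc.n46 (q4.resolve_left (sx.n24 hx2)) (q6.resolve_left (sx.n26 hx2))
    have c6 := q6.resolve_left (sx.n36 r3)
    have r4 : 0 < D s v4 v5 x := q4.resolve_right (fun h4 => sc.n46 h4 c6)
    exact ⟨sx.s1 (fun h1 => sx.n13 h1 r3), sx.s2 (fun h1 => sx.n24 h1 r4), r3, r4,
      sx.s5 (sx.n35 r3), sx.s6 (sx.n36 r3)⟩
  have hC : ∀ y ∈ C, D s v2 v3 y < 0 ∧ D s v3 v4 y < 0 := by
    intro y hy
    have hb := hB b h.bB
    have sy := sg (mC y hy)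
    obtain ⟨q3, q4, q5, q6⟩ := cov (x1 := b) (x2 := y) (fun t ht => inC h hy ht)
    have r5 : 0 < D s v5 v6 y := by
      rcases q5 with q | q
      · linarith [hb.2.2.2.2.1]
      · exact q
    exact ⟨sy.s2 (fun h1 => sy.n25 h1 r5), sy.s3 (fun h1 => sy.n35 h1 r5)⟩
  refine Or.inr ⟨⟨v2, v3, hp.h2, hp.h3, n23, hp.e2, ?_⟩, ?_⟩
  · intro z hz
    rcases Finset.mem_union.1 hz with hz | hz
    · exact (hB z hz).2.1
    · exact (hC z hz).1
  · intro _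
    refine Or.inl ⟨v1, v2, v3, v5, v4, ?_⟩
    exact {
      hv := hp.h1
      hL := hp.h2
      hR := hp.h3
      hτ := hp.h5
      hh := hp.h4
      vmin := fun t ht hne => tan2 hp.h6 hp.h2 n26.symm n16.symm n12.symm hp.e6 hp.e1 a6 a1 ht hne
      Rmax := fun t ht hne => by
        have := tan1 hp.h2 hp.h4 n24 n23 n34.symm hp.e2 hp.e3 a2 a3 ht hne
        rw [D_swap']; linarith
      LR := n23
      eLR := hp.e2
      rB := fun z hz => (hB z hz).2.1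
      rC := fun z hz => (hC z hz).1
      vL := Or.inr ⟨hp.e1, by
        have h1 := (hB b h.bB).1
        have e := D_swap13 s v1 v2 b
        linarith⟩
      τv := n15.symm
      τmax := fun t ht hne => by
        have hb := hB b h.bB
        have := tan1 hp.h4 hp.h6 n46 n45 n56.symm hp.e4 hp.e5 hb.2.2.2.1 hb.2.2.2.2.1 ht hne
        rw [D_swap']; linarith
      τtan := fun x hx _ t ht hne => by
        have hb := hB x hx
        exact tan1 hp.h4 hp.h6 n46 n45 n56.symm hp.e4 hp.e5 hb.2.2.2.1 hb.2.2.2.2.1 ht hne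
      hR' := n34.symm
      hC := fun y hy => (hC y hy).2
      hga := by
        have := (hC c h.cC).2
        rw [D_cyc']; exact this }

/-- S1 data in the case `k = 5`, `I_a = {1, 2}`, `B = {3, 4}` -/
lemma s1_52 (hp : P5 s T v1 v2 v3 v4 v5)
    (a1 : 0 < D s v1 v2 a) (a2 : 0 < D s v2 v3 a) (a3 : D s v3 v4 a < 0) (a5 : D s v5 v1 a < 0)
    (bB : b ∈ B) (cC : c ∈ C)
    (hB : ∀ x ∈ B, D s v1 v2 x < 0 ∧ D s v2 v3 x < 0 ∧ 0 < D s v4 v5 x ∧ D s v5 v1 x < 0)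
    (hC : ∀ y ∈ C, D s v2 v3 y < 0 ∧ D s v3 v4 y < 0) :
    S1D s T B C a b c v1 v2 v3 v5 v4 := by
  obtain ⟨n12, n13, n14, n15, n23, n24, n25, n34, n35, n45⟩ := hp.ne
  exact {
    hv := hp.h1
    hL := hp.h2
    hR := hp.h3
    hτ := hp.h5
    hh := hp.h4
    vmin := fun t ht hne => tan2 hp.h5 hp.h2 n25.symm n15.symm n12.symm hp.e5 hp.e1 a5 a1 ht hne
    Rmax := fun t ht hne => by
      have := tan1 hp.h2 hp.h4 n24 n23 n34.symm hp.e2 hp.e3 a2 a3 ht hne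
      rw [D_swap']; linarith
    LR := n23
    eLR := hp.e2
    rB := fun z hz => (hB z hz).2.1
    rC := fun z hz => (hC z hz).1
    vL := Or.inr ⟨hp.e1, by
      have h1 := (hB b bB).1
      have e := D_swap13 s v1 v2 b
      linarith⟩
    τv := n15.symm
    τmax := fun t ht hne => by
      have hb := hB b bB
      have := tan1 hp.h4 hp.h1 n14.symm n45 n15 hp.e4 hp.e5 hb.2.2.1 hb.2.2.2 ht hne
      rw [D_swap']; linarith
    τtan := fun x hx _ t ht hne => by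
      have hb := hB x hx
      exact tan1 hp.h4 hp.h1 n14.symm n45 n15 hp.e4 hp.e5 hb.2.2.1 hb.2.2.2 ht hne
    hR' := n34.symm
    hC := fun y hy => (hC y hy).2
    hga := by
      have := (hC c cC).2
      rw [D_cyc']; exact this }

/-- `k = 5`, `I_a = {1, 2}` -/
lemma case52 (h : Cls s m P T A B C a b c) (hT : InF m P T) (hp : P5 s T v1 v2 v3 v4 v5)
    (a1 : 0 < D s v1 v2 a) (a2 : 0 < D s v2 v3 a) : Concl s T A B C a b c := by
  obtain ⟨n12, n13, n14, n15, n23, n24, n25, n34, n35, n45⟩ := hp.ne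
  obtain ⟨mA, mB, mC⟩ := cls_mem h
  have sg : ∀ {z}, z ∈ P ∧ z ∉ T → Sg5 s v1 v2 v3 v4 v5 z := fun hz => hp.sg h.set hT hz.1 hz.2
  have sa := sg (mA a h.aA)
  have a3 : D s v3 v4 a < 0 := sa.s3 (sa.n13 a1)
  have a4 : D s v4 v5 a < 0 := sa.s4 (sa.n14 a1)
  have a5 : D s v5 v1 a < 0 := sa.s5 (sa.n25 a2)
  have k234 : 0 < D s v2 v3 v4 := hp.e2 v4 hp.h4 n24.symm n34.symm
  have k512 : 0 < D s v5 v1 v2 := hp.e5 v2 hp.h2 n25 n12.symm
  have k452 : 0 < D s v4 v5 v3 := hp.e4 v3 hp.h3 n34 n35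
  have k451 : 0 < D s v4 v5 v1 := hp.e4 v1 hp.h1 n14 n15
  have k125 : 0 < D s v1 v2 v5 := hp.e1 v5 hp.h5 n15.symm n25.symm
  -- covering
  have cov : ∀ {x1 x2 : ℝ × ℝ}, (∀ t ∈ T, 0 < D s a x1 t ∧ 0 < D s x1 x2 t ∧ 0 < D s x2 a t) →
      (0 < D s v3 v4 x1 ∨ 0 < D s v3 v4 x2) ∧ (0 < D s v4 v5 x1 ∨ 0 < D s v4 v5 x2) ∧
      (0 < D s v5 v1 x1 ∨ 0 < D s v5 v1 x2) := by
    intro x1 x2 hx
    refine ⟨?_, ?_, ?_⟩
    · obtain ⟨g1, g2, g3⟩ := hx v1 hp.h1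
      rcases t3 g1 g2 g3 (hp.e3 v1 hp.h1 n13 n14) with r | r | r
      · linarith
      · exact Or.inl r
      · exact Or.inr r
    · obtain ⟨g1, g2, g3⟩ := hx v1 hp.h1
      rcases t3 g1 g2 g3 (hp.e4 v1 hp.h1 n14 n15) with r | r | r
      · linarith
      · exact Or.inl r
      · exact Or.inr r
    · obtain ⟨g1, g2, g3⟩ := hx v3 hp.h3
      rcases t3 g1 g2 g3 (hp.e5 v3 hp.h3 n35 n13.symm) with r | r | r
      · linarith
      · exact Or.inl r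
      · exact Or.inr r
  have oB : ∀ x ∈ B, ¬ (D s v2 v3 x < 0 ∧ D s v3 v4 x < 0) := fun x hx hh =>
    ori1 k234 (inB h hx hp.h3).1 a2 a3 hh.1 hh.2
  have oC : ∀ y ∈ C, ¬ (D s v5 v1 y < 0 ∧ D s v1 v2 y < 0) := fun y hy hh =>
    ori2 k512 (inC h hy hp.h1).2.2 a5 a1 hh.1 hh.2
  -- `5 ∈ I_c` or `1 ∈ I_c`
  have c51 : ∀ y ∈ C, ¬ 0 < D s v3 v4 y := by
    intro y hy h3
    have sy := sg (mC y hy)
    exact oC y hy ⟨sy.s5 (sy.n35 h3), sy.s1 (fun h1 => sy.n13 h1 h3)⟩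
  have b23 : ∀ x ∈ B, ¬ 0 < D s v5 v1 x := by
    intro x hx h5
    have sx := sg (mB x hx)
    exact oB x hx ⟨sx.s2 (fun h2 => sx.n25 h2 h5), sx.s3 (fun h3 => sx.n35 h3 h5)⟩
  have hB3 : ∀ x ∈ B, 0 < D s v3 v4 x := fun x hx =>
    (cov (fun t ht => inB h hx ht)).1.resolve_right (c51 c h.cC)
  have hC5 : ∀ y ∈ C, 0 < D s v5 v1 y := fun y hy =>
    (cov (fun t ht => inC h hy ht)).2.2.resolve_left (b23 b h.bB)
  have hB : ∀ x ∈ B, D s v1 v2 x < 0 ∧ 0 < D s v3 v4 x ∧ D s v5 v1 x < 0 := by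
    intro x hx
    have sx := sg (mB x hx)
    exact ⟨sx.s1 (fun h1 => sx.n13 h1 (hB3 x hx)), hB3 x hx, sx.s5 (sx.n35 (hB3 x hx))⟩
  have hC : ∀ y ∈ C, D s v2 v3 y < 0 ∧ D s v3 v4 y < 0 ∧ 0 < D s v5 v1 y := by
    intro y hy
    have sy := sg (mC y hy)
    exact ⟨sy.s2 (fun h1 => sy.n25 h1 (hC5 y hy)), sy.s3 (fun h1 => sy.n35 h1 (hC5 y hy)),
      hC5 y hy⟩
  by_cases hF : (∃ x ∈ B, 0 < D s v2 v3 x) ∧ (∃ y ∈ C, 0 < D s v1 v2 y)
  · -- FIVE
    obtain ⟨⟨x0, hx0, hx2⟩, ⟨y0, hy0, hy1⟩⟩ := hF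
    have sx0 := sg (mB x0 hx0)
    have sy0 := sg (mC y0 hy0)
    have x4 : D s v4 v5 x0 < 0 := sx0.s4 (sx0.n24 hx2)
    have y4 : D s v4 v5 y0 < 0 := sy0.s4 (sy0.n14 hy1)
    have hx0' := hB x0 hx0
    have hy0' := hC y0 hy0
    -- types in `B` : `{3,4}` or `{2,3}`
    have tB : ∀ x ∈ B, ¬ 0 < D s v2 v3 x → 0 < D s v4 v5 x := by
      intro x hx hn
      have sx := sg (mB x hx)
      by_contra hcon
      exact gap k452 k234 (sx.s2 hn) (hB3 x hx) (sx.s4 hcon) hy0'.1 hy0'.2.1 y4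
    have tC : ∀ y ∈ C, ¬ 0 < D s v1 v2 y → 0 < D s v4 v5 y := by
      intro y hy hn
      have sy := sg (mC y hy)
      by_contra hcon
      exact gap k125 k451 (sy.s4 hcon) (hC5 y hy) (sy.s1 hn) x4 hx0'.2.2 hx0'.1
    -- `b` has type `{3,4}`, `c` has type `{4,5}`
    have b4 : 0 < D s v4 v5 b :=
      (cov (fun t ht => inC h hy0 ht)).2.1.resolve_right (by linarith)
    have c4 : 0 < D s v4 v5 c :=
      (cov (fun t ht => inB h hx0 ht)).2.1.resolve_left (by linarith)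
    have sb := sg (mB b h.bB)
    have sc := sg (mC c h.cC)
    have b2 : ¬ 0 < D s v2 v3 b := fun h2 => sb.n24 h2 b4
    have c1 : ¬ 0 < D s v1 v2 c := fun h2 => sc.n14 h2 c4
    -- `A` has type `{1,2}`
    have hA : ∀ z ∈ A, 0 < D s v1 v2 z ∧ 0 < D s v2 v3 z := by
      intro z hz
      have hb := hB b h.bB
      have hc := hC c h.cC
      constructor
      · obtain ⟨g1, g2, g3⟩ := inA h hz hp.h5
        rcases t3 g1 g2 g3 k125 with r | r | r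
        · exact r
        · linarith [hb.1]
        · exact absurd r c1
      · obtain ⟨g1, g2, g3⟩ := inA h hz hp.h4
        rcases t3 g1 g2 g3 k234 with r | r | r
        · exact r
        · exact absurd r b2
        · linarith [hc.1]
    -- all of `T` is to the right of `x y`
    have hxy : ∀ x ∈ B, 0 < D s v2 v3 x → ∀ y ∈ C, 0 < D s v1 v2 y → ∀ t ∈ T,
        D s x y t < 0 := by
      intro x hx h2 y hy h1 t ht
      have sx := sg (mB x hx)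
      have sy := sg (mC y hy)
      have x4' : D s v4 v5 x < 0 := sx.s4 (sx.n24 h2)
      have y4' : D s v4 v5 y < 0 := sy.s4 (sy.n14 h1)
      have f4 : ∀ t ∈ T, 0 ≤ D s v4 v5 t := by
        intro t ht
        by_cases t4 : t = v4
        · subst t4; simp
        by_cases t5 : t = v5
        · subst t5; simp
        exact (hp.e4 t ht t4 t5).le
      have hne : ∀ t ∈ T, D s x y t ≠ 0 := by
        intro t ht
        apply h.set.conf.gen.D_ne h.set.conf.hs (mB x hx).1 (mC y hy).1 (h.subT ht)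
        · rintro rfl
          exact Finset.disjoint_left.1 h.BC hx hy
        · rintro rfl
          exact (mB _ hx).2 ht
        · rintro rfl
          exact (mC _ hy).2 ht
      by_contra hcon
      have hpos : 0 < D s x y t := lt_of_le_of_ne (not_lt.1 hcon) (hne t ht).symm
      have hall : ∀ t' ∈ T, 0 < D s x y t' := by
        intro t' ht'
        by_contra hcon'
        have hneg : D s x y t' < 0 := lt_of_le_of_ne (not_lt.1 hcon') (hne t' ht')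
        exact one_side (inB h hx ht).1 (inB h hx ht').1 (inC h hy ht).2.2 (inC h hy ht').2.2
          x4' y4' (f4 t ht) (f4 t' ht') hpos hneg
      rcases t3 (inB h hx hp.h1).1 (hall v1 hp.h1) (inC h hy hp.h1).2.2 k451 with r | r | r <;>
        linarith
    classical
    refine Or.inl ⟨B.filter (fun z => ¬ 0 < D s v2 v3 z), C.filter (fun z => ¬ 0 < D s v1 v2 z),
      C.filter (fun z => 0 < D s v1 v2 z), B.filter (fun z => 0 < D s v2 v3 z),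
      v1, v2, v3, v4, v5, ?_, ?_, ?_⟩
    · ext z
      simp only [Finset.mem_union, Finset.mem_filter]
      tauto
    · ext z
      simp only [Finset.mem_union, Finset.mem_filter]
      tauto
    · exact {
        h1 := hp.h1
        h2 := hp.h2
        h3 := hp.h3
        h4 := hp.h4
        h5 := hp.h5
        nd := hp.nd
        e1 := hp.e1
        e2 := hp.e2
        e3 := hp.e3
        e4 := hp.e4
        e5 := hp.e5
        E1s := fun z hz => by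
          rw [Finset.mem_filter] at hz
          have hz' := hB z hz.1
          have sz := sg (mB z hz.1)
          exact ⟨hz'.2.2, hz'.1, sz.s2 hz.2, hz'.2.1, tB z hz.1 hz.2⟩
        E2s := fun z hz => by
          rw [Finset.mem_filter] at hz
          have hz' := hC z hz.1
          have sz := sg (mC z hz.1)
          exact ⟨sz.s1 hz.2, hz'.1, hz'.2.1, tC z hz.1 hz.2, hz'.2.2⟩
        E3s := fun z hz => by
          rw [Finset.mem_filter] at hz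
          have hz' := hC z hz.1
          have sz := sg (mC z hz.1)
          exact ⟨hz'.1, hz'.2.1, sz.s4 (sz.n14 hz.2), hz'.2.2, hz.2⟩
        E4s := fun z hz => by
          have hz' := hA z hz
          have sz := sg (mA z hz)
          exact ⟨sz.s3 (sz.n13 hz'.1), sz.s4 (sz.n14 hz'.1), sz.s5 (sz.n25 hz'.2), hz'.1, hz'.2⟩
        E5s := fun z hz => by
          rw [Finset.mem_filter] at hz
          have hz' := hB z hz.1
          have sz := sg (mB z hz.1)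
          exact ⟨sz.s4 (sz.n24 hz.2), hz'.2.2, hz'.1, hz.2, hz'.2.1⟩
        aE := h.aA
        bE := Finset.mem_filter.2 ⟨h.bB, b2⟩
        cE := Finset.mem_filter.2 ⟨h.cC, c1⟩
        n3 := ⟨y0, Finset.mem_filter.2 ⟨hy0, hy1⟩⟩
        n5 := ⟨x0, Finset.mem_filter.2 ⟨hx0, hx2⟩⟩
        d51 := by
          rw [Finset.disjoint_left]
          intro z h1 h2
          exact (Finset.mem_filter.1 h2).2 (Finset.mem_filter.1 h1).2
        d23 := by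
          rw [Finset.disjoint_left]
          intro z h1 h2
          exact (Finset.mem_filter.1 h1).2 (Finset.mem_filter.1 h2).2
        x5 := fun x hx t ht => by
          rw [Finset.mem_filter] at hx
          by_contra hcon
          have hbx : D s b t x < 0 := by
            refine lt_of_le_of_ne (not_lt.1 hcon) ?_
            apply h.set.conf.gen.D_ne h.set.conf.hs (mB b h.bB).1 (h.subT ht) (mB x hx.1).1
            · rintro rfl
              exact (mB _ h.bB).2 ht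
            · rintro rfl
              exact b2 hx.2
            · rintro rfl
              exact (mB _ hx.1).2 ht
          have h1 := h.nearB x hx.1 t ht
          have h2 := h.nearC y0 hy0 t ht
          have := sec_b (inT h ht).1 h1.2 hbx h2.1 h2.2
          have := hxy x hx.1 hx.2 y0 hy0 hy1 t ht
          linarith
        y3 := fun y hy t ht => by
          rw [Finset.mem_filter] at hy
          by_contra hcon
          have hcy : 0 < D s c t y := by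
            refine lt_of_le_of_ne (not_lt.1 hcon) (Ne.symm ?_)
            apply h.set.conf.gen.D_ne h.set.conf.hs (mC c h.cC).1 (h.subT ht) (mC y hy.1).1
            · rintro rfl
              exact (mC _ h.cC).2 ht
            · rintro rfl
              exact c1 hy.2
            · rintro rfl
              exact (mC _ hy.1).2 ht
          have h1 := h.nearB x0 hx0 t ht
          have h2 := h.nearC y hy.1 t ht
          have := sec_c (inT h ht).2.2 h1.2 h1.1 h2.1 hcy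
          have := hxy x0 hx0 hx2 y hy.1 hy.2 t ht
          linarith }
  · refine Or.inr ⟨?_, ?_⟩
    · -- an edge
      by_cases hb2 : ∃ x ∈ B, 0 < D s v2 v3 x
      · have hC1 : ∀ y ∈ C, ¬ 0 < D s v1 v2 y := fun y hy h1 => hF ⟨hb2, y, hy, h1⟩
        refine ⟨v1, v2, hp.h1, hp.h2, n12, hp.e1, ?_⟩
        intro z hz
        rcases Finset.mem_union.1 hz with hz | hz
        · exact (hB z hz).1
        · exact (sg (mC z hz)).s1 (hC1 z hz)
      · push Not at hb2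
        refine ⟨v2, v3, hp.h2, hp.h3, n23, hp.e2, ?_⟩
        intro z hz
        rcases Finset.mem_union.1 hz with hz | hz
        · exact (sg (mB z hz)).s2 (by linarith [hb2 z hz])
        · exact (hC z hz).1
    · intro _
      by_cases hb4 : ∀ x ∈ B, 0 < D s v4 v5 x
      · refine Or.inl ⟨v1, v2, v3, v5, v4, ?_⟩
        refine s1_52 hp a1 a2 a3 a5 h.bB h.cC ?_ ?_
        · intro x hx
          have sx := sg (mB x hx)
          exact ⟨(hB x hx).1, sx.s2 (fun h2 => sx.n24 h2 (hb4 x hx)), hb4 x hx, (hB x hx).2.2⟩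
        · intro y hy
          exact ⟨(hC y hy).1, (hC y hy).2.1⟩
      · push Not at hb4
        obtain ⟨x1, hx1, hx14⟩ := hb4
        have sx1 := sg (mB x1 hx1)
        have hx14' : D s v4 v5 x1 < 0 := sx1.s4 (by linarith)
        have hc4 : ∀ y ∈ C, 0 < D s v4 v5 y := by
          intro y hy
          have sy := sg (mC y hy)
          by_contra hcon
          have hy4 := sy.s4 hcon
          by_cases hx12 : 0 < D s v2 v3 x1
          · by_cases hy1 : 0 < D s v1 v2 y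
            · exact hF ⟨⟨x1, hx1, hx12⟩, ⟨y, hy, hy1⟩⟩
            · exact gap k125 k451 hy4 (hC5 y hy) (sy.s1 hy1) hx14' (hB x1 hx1).2.2 (hB x1 hx1).1
          · exact gap k452 k234 (sx1.s2 hx12) (hB3 x1 hx1) hx14' (hC y hy).1 (hC y hy).2.1 hy4
        refine Or.inr ⟨v3, v2, v1, v4, v5, ?_⟩
        have ng : ∀ (p q z : ℝ × ℝ), D (-s) q p z = D s p q z := by
          intro p q z; rw [D_neg, D_swap]; ring
        refine s1_52 hp.mir ?_ ?_ ?_ ?_ h.cC h.bB ?_ ?_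
        · rw [ng]; exact a2
        · rw [ng]; exact a1
        · rw [ng]; exact a5
        · rw [ng]; exact a3
        · intro y hy
          have sy := sg (mC y hy)
          rw [ng, ng, ng, ng]
          exact ⟨(hC y hy).1, sy.s1 (fun h1 => sy.n14 h1 (hc4 y hy)), hc4 y hy, (hC y hy).2.1⟩
        · intro x hx
          rw [ng, ng]
          exact ⟨(hB x hx).1, (hB x hx).2.2⟩

lemma main5 (h : Cls s m P T A B C a b c) (hT : InF m P T) (hp : P5 s T v1 v2 v3 v4 v5)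
    (a1 : 0 < D s v1 v2 a) : Concl s T A B C a b c := by
  obtain ⟨mA, mB, mC⟩ := cls_mem h
  have sa : Sg5 s v1 v2 v3 v4 v5 a := hp.sg h.set hT (mA a h.aA).1 (mA a h.aA).2
  by_cases a2 : 0 < D s v2 v3 a
  · exact case52 h hT hp a1 a2
  by_cases a5 : 0 < D s v5 v1 a
  · exact case52 h hT hp.rot.rot.rot.rot a5 a1
  exact case51 h hT hp a1 (sa.s2 a2) (sa.s3 (sa.n13 a1)) (sa.s4 (sa.n14 a1)) (sa.s5 a5)

theorem types5 (h : Cls s m P T A B C a b c) (hT : InF m P T) (hp : P5 s T v1 v2 v3 v4 v5) :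
    Concl s T A B C a b c := by
  obtain ⟨mA, mB, mC⟩ := cls_mem h
  have sa : Sg5 s v1 v2 v3 v4 v5 a := hp.sg h.set hT (mA a h.aA).1 (mA a h.aA).2
  rcases sa.some with h1 | h1 | h1 | h1 | h1
  · exact main5 h hT hp h1
  · exact main5 h hT hp.rot h1
  · exact main5 h hT hp.rot.rot h1
  · exact main5 h hT hp.rot.rot.rot h1
  · exact main5 h hT hp.rot.rot.rot.rot h1

theorem types6 (h : Cls s m P T A B C a b c) (hT : InF m P T) (hp : P6 s T v1 v2 v3 v4 v5 v6) :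
    Concl s T A B C a b c := by
  obtain ⟨n12, n13, n14, n15, n16, n23, n24, n25, n26, n34, n35, n36, n45, n46, n56⟩ := hp.ne
  obtain ⟨mA, mB, mC⟩ := cls_mem h
  have sg : ∀ {z}, z ∈ P ∧ z ∉ T → Sg6 s v1 v2 v3 v4 v5 v6 z :=
    fun hz => hp.sg h.set hT hz.1 hz.2
  have sa := sg (mA a h.aA)
  have sb := sg (mB b h.bB)
  have sc := sg (mC c h.cC)
  have i1 := inT h hp.h1
  have i3 := inT h hp.h3
  have q1 := t3 i3.1 i3.2.1 i3.2.2 (hp.e1 v3 hp.h3 n13.symm n23.symm)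
  have q2 := t3 i1.1 i1.2.1 i1.2.2 (hp.e2 v1 hp.h1 n12 n13)
  have q3 := t3 i1.1 i1.2.1 i1.2.2 (hp.e3 v1 hp.h1 n13 n14)
  have q4 := t3 i1.1 i1.2.1 i1.2.2 (hp.e4 v1 hp.h1 n14 n15)
  have q5 := t3 i1.1 i1.2.1 i1.2.2 (hp.e5 v1 hp.h1 n15 n16)
  have q6 := t3 i3.1 i3.2.1 i3.2.2 (hp.e6 v3 hp.h3 n36 n13.symm)
  have even : 0 < D s v2 v3 a ∨ 0 < D s v4 v5 a ∨ 0 < D s v6 v1 a := by
    by_contra hcon
    push Not at hcon
    obtain ⟨c2, c4, c6⟩ := hcon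
    have r2 := q2.resolve_left (not_lt.2 c2)
    have r4 := q4.resolve_left (not_lt.2 c4)
    have r6 := q6.resolve_left (not_lt.2 c6)
    rcases r2 with r2 | r2 <;> rcases r4 with r4 | r4 <;> rcases r6 with r6 | r6 <;>
      first
      | exact sb.n24 r2 r4
      | exact sb.n26 r2 r6
      | exact sb.n46 r4 r6
      | exact sc.n24 r2 r4
      | exact sc.n26 r2 r6
      | exact sc.n46 r4 r6
  have odd : 0 < D s v1 v2 a ∨ 0 < D s v3 v4 a ∨ 0 < D s v5 v6 a := by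
    by_contra hcon
    push Not at hcon
    obtain ⟨c1, c3, c5⟩ := hcon
    have r1 := q1.resolve_left (not_lt.2 c1)
    have r3 := q3.resolve_left (not_lt.2 c3)
    have r5 := q5.resolve_left (not_lt.2 c5)
    rcases r1 with r1 | r1 <;> rcases r3 with r3 | r3 <;> rcases r5 with r5 | r5 <;>
      first
      | exact sb.n13 r1 r3
      | exact sb.n15 r1 r5
      | exact sb.n35 r3 r5
      | exact sc.n13 r1 r3
      | exact sc.n15 r1 r5
      | exact sc.n35 r3 r5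
  rcases odd with a1 | a3 | a5
  · rcases even with a2 | a4 | a6
    · exact case6 h hT hp a1 a2
    · exact absurd a4 (sa.n14 a1)
    · exact case6 h hT hp.rot.rot.rot.rot.rot a6 a1
  · rcases even with a2 | a4 | a6
    · exact case6 h hT hp.rot a2 a3
    · exact case6 h hT hp.rot.rot a3 a4
    · exact absurd a6 (sa.n36 a3)
  · rcases even with a2 | a4 | a6
    · exact absurd a5 (sa.n25 a2)
    · exact case6 h hT hp.rot.rot.rot a4 a5
    · exact case6 h hT hp.rot.rot.rot.rot a5 a6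

end cases

end Pool.Agent.G5.Tri.TP

namespace Pool.Agent.G5.Tri

open Pool.Agent.G5.Lower Pool.Agent.G5.Planar Pool.Agent.G5.Core Pool.Agent.G5.Quad
  Pool.Agent.G5.Frame

/-- TYPES, part 2: `PAIR(a)` and `S1DATA(a)` -/
theorem types_pair {s : ℝ} {m : ℕ} {P T A B C : Finset (ℝ × ℝ)} {a b c : ℝ × ℝ}
    (h : Cls s m P T A B C a b c) (hT : InF m P T) :
    TP.FiveAt s T A B C a b c ∨
      ((∃ p q, EdgeR s T (B ∪ C) p q) ∧
        (A = {a} → (∃ v L R τ h, S1D s T B C a b c v L R τ h) ∨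
          (∃ v L R τ h, S1D (-s) T C B a c b v L R τ h))) := by
  obtain ⟨mA, mB, mC⟩ := TP.cls_mem h
  rcases pent_or_hex h.set hT (mA a h.aA).2 (mB b h.bB).2 (mC c h.cC).2 with
    ⟨v1, v2, v3, v4, v5, hp⟩ | ⟨v1, v2, v3, v4, v5, v6, hp⟩
  · exact TP.types5 h hT ⟨hp.h1, hp.h2, hp.h3, hp.h4, hp.h5, hp.nd, hp.e1, hp.e2, hp.e3, hp.e4,
      hp.e5⟩
  · exact TP.types6 h hT ⟨hp.h1, hp.h2, hp.h3, hp.h4, hp.h5, hp.h6, hp.nd, hp.e1, hp.e2, hp.e3,
      hp.e4, hp.e5, hp.e6⟩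

end Pool.Agent.G5.Tri
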