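import Pool.Agent.Lib_helper1.G5T.Defs

/-!
# MP_022ed3_co, module TYPES, part 2: the planar facts (t3), (t6), (t7), (t8), SEC
-/

set_option autoImplicit false

namespace Pool.Agent.G5.Tri.TP

open Pool.Agent.G5.Lower Pool.Agent.G5.Planar Pool.Agent.G5.Core Pool.Agent.G5.Quad
  Pool.Agent.G5.Frame

section alg

variable {s : ℝ} {u v w x y z z' a b c t t1 t2 x1 x2 x3 p q : ℝ × ℝ}

/-- (t3) -/
lemma t3 (h1 : 0 < D s x1 x2 t) (h2 : 0 < D s x2 x3 t) (h3 : 0 < D s x3 x1 t)
    (ht : 0 < D s p q t) : 0 < D s p q x1 ∨ 0 < D s p q x2 ∨ 0 < D s p q x3 := by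
  by_contra hcon
  push Not at hcon
  obtain ⟨c1, c2, c3⟩ := hcon
  have e1 : D s x1 x2 x3 = D s x2 x3 t + D s x3 x1 t + D s x1 x2 t := by
    simp only [D, dt]; ring
  have e2 : D s x1 x2 x3 * D s p q t = D s x2 x3 t * D s p q x1 + D s x3 x1 t * D s p q x2 +
      D s x1 x2 t * D s p q x3 := by
    simp only [D, dt]; ring
  have p1 : 0 < D s x1 x2 x3 * D s p q t := mul_pos (by rw [e1]; linarith) ht
  have p2 := mul_nonpos_of_nonneg_of_nonpos h2.le c1
  have p3 := mul_nonpos_of_nonneg_of_nonpos h3.le c2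
  have p4 := mul_nonpos_of_nonneg_of_nonpos h1.le c3
  linarith

lemma ori_id (s : ℝ) (u v w x1 x2 : ℝ × ℝ) :
    D s u v w * D s x1 x2 v + D s v w x1 * D s u v x2 - D s v w x2 * D s u v x1 = 0 := by
  simp only [D, dt]; ring

/-- (t6), first part -/
lemma ori1 (h : 0 < D s u v w) (h1 : 0 < D s x1 x2 v) (h2 : 0 < D s u v x1)
    (h3 : D s v w x1 < 0) (h4 : D s u v x2 < 0) (h5 : D s v w x2 < 0) : False := by
  have e := ori_id s u v w x1 x2
  have p1 := mul_pos h h1
  have p2 := mul_pos_of_neg_of_neg h3 h4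
  have p3 := mul_neg_of_neg_of_pos h5 h2
  linarith

/-- (t6), second part -/
lemma ori2 (h : 0 < D s u v w) (h1 : 0 < D s x1 x2 v) (h2 : D s u v x2 < 0)
    (h3 : 0 < D s v w x2) (h4 : D s u v x1 < 0) (h5 : D s v w x1 < 0) : False := by
  have e := ori_id s u v w x1 x2
  have p1 := mul_pos h h1
  have p2 := mul_pos_of_neg_of_neg h5 h2
  have p3 := mul_neg_of_pos_of_neg h3 h4
  linarith

lemma gap_id (s : ℝ) (u v w x p : ℝ × ℝ) :
    D s w x v * D s u v p + D s u v w * D s w x p - D s u v w * D s w x v =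
      (D s w x u - D s w x v) * D s v w p := by
  simp only [D, dt]; ring

/-- (t7) -/
lemma gap (h1 : 0 < D s w x v) (h2 : 0 < D s u v w) (z1 : D s u v z < 0) (z2 : 0 < D s v w z)
    (z3 : D s w x z < 0) (y1 : D s u v z' < 0) (y2 : D s v w z' < 0) (y3 : D s w x z' < 0) :
    False := by
  have e1 := gap_id s u v w x z
  have e2 := gap_id s u v w x z'
  have h12 := mul_pos h2 h1
  have a1 := mul_neg_of_pos_of_neg h1 z1
  have a2 := mul_neg_of_pos_of_neg h2 z3
  have b1 := mul_neg_of_pos_of_neg h1 y1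
  have b2 := mul_neg_of_pos_of_neg h2 y3
  rcases le_total 0 (D s w x u - D s w x v) with hk | hk
  · have := mul_nonneg hk z2.le
    linarith
  · have := mul_nonneg_of_nonpos_of_nonpos hk y2.le
    linarith

lemma tan_id (s : ℝ) (u w x z t : ℝ × ℝ) :
    D s w x u * D s z w t = - (D s w x t * D s u w z) + D s w x z * D s u w t := by
  simp only [D, dt]; ring

/-- (t8), first part -/
lemma tan1 {T : Finset (ℝ × ℝ)} (hu : u ∈ T) (hx : x ∈ T) (hux : u ≠ x) (huw : u ≠ w)
    (hxw : x ≠ w)
    (e1 : ∀ t ∈ T, t ≠ u → t ≠ w → 0 < D s u w t) (e2 : ∀ t ∈ T, t ≠ w → t ≠ x → 0 < D s w x t)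
    (z1 : 0 < D s u w z) (z2 : D s w x z < 0) (ht : t ∈ T) (htw : t ≠ w) : D s z w t < 0 := by
  have e := tan_id s u w x z t
  have h0 : 0 < D s w x u := e2 u hu huw hux
  have key : D s w x u * D s z w t < 0 := by
    rw [e]
    by_cases htu : t = u
    · subst htu
      have := mul_pos h0 z1
      simp only [D_self13, mul_zero, add_zero]
      linarith
    · have h1 : 0 < D s u w t := e1 t ht htu htw
      have h2 : 0 ≤ D s w x t := by
        by_cases htx : t = x
        · subst htx; simp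
        · exact (e2 t ht htw htx).le
      have := mul_neg_of_neg_of_pos z2 h1
      have := mul_nonneg h2 z1.le
      linarith
  by_contra hcon
  have := mul_nonneg h0.le (not_lt.1 hcon)
  linarith

/-- (t8), second part -/
lemma tan2 {T : Finset (ℝ × ℝ)} (hu : u ∈ T) (hx : x ∈ T) (hux : u ≠ x) (huw : u ≠ w)
    (hxw : x ≠ w)
    (e1 : ∀ t ∈ T, t ≠ u → t ≠ w → 0 < D s u w t) (e2 : ∀ t ∈ T, t ≠ w → t ≠ x → 0 < D s w x t)
    (z1 : D s u w z < 0) (z2 : 0 < D s w x z) (ht : t ∈ T) (htw : t ≠ w) : 0 < D s z w t := by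
  have e := tan_id s u w x z t
  have h0 : 0 < D s w x u := e2 u hu huw hux
  have key : 0 < D s w x u * D s z w t := by
    rw [e]
    by_cases htu : t = u
    · subst htu
      have := mul_neg_of_pos_of_neg h0 z1
      simp only [D_self13, mul_zero, add_zero]
      linarith
    · have h1 : 0 < D s u w t := e1 t ht htu htw
      have h2 : 0 ≤ D s w x t := by
        by_cases htx : t = x
        · subst htx; simp
        · exact (e2 t ht htw htx).le
      have := mul_pos z2 h1
      have := mul_nonpos_of_nonneg_of_nonpos h2 z1.le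
      linarith
  by_contra hcon
  have := mul_nonpos_of_nonneg_of_nonpos h0.le (not_lt.1 hcon)
  linarith

/-- `T` is on one side of `x y` -/
lemma one_side (hx1 : 0 < D s a x t1) (hx2 : 0 < D s a x t2) (hy1 : 0 < D s y a t1)
    (hy2 : 0 < D s y a t2) (fx : D s p q x < 0) (fy : D s p q y < 0) (f1 : 0 ≤ D s p q t1)
    (f2 : 0 ≤ D s p q t2) (h1 : 0 < D s x y t1) (h2 : D s x y t2 < 0) : False := by
  have b : ∀ t, D s a x y = D s x y t + D s y a t + D s a x t := by
    intro t; simp only [D, dt]; ring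
  have g : ∀ t, D s a x y * D s p q t = D s x y t * D s p q a + D s y a t * D s p q x +
      D s a x t * D s p q y := by
    intro t; simp only [D, dt]; ring
  have hd : 0 < D s a x y := by rw [b t1]; linarith
  have g1 := g t1
  have g2 := g t2
  -- combination `- D x y t2 * g1 + D x y t1 * g2`
  have m1 : 0 ≤ D s a x y * D s p q t1 := mul_nonneg hd.le f1
  have m2 : 0 ≤ D s a x y * D s p q t2 := mul_nonneg hd.le f2
  have n1 : D s y a t1 * D s p q x + D s a x t1 * D s p q y < 0 := by
    have := mul_neg_of_pos_of_neg hy1 fx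
    have := mul_neg_of_pos_of_neg hx1 fy
    linarith
  have n2 : D s y a t2 * D s p q x + D s a x t2 * D s p q y < 0 := by
    have := mul_neg_of_pos_of_neg hy2 fx
    have := mul_neg_of_pos_of_neg hx2 fy
    linarith
  have k1 : 0 < D s x y t1 * D s p q a := by linarith
  have k2 : 0 < D s x y t2 * D s p q a := by linarith
  have k3 : 0 < D s p q a := (pos_iff_pos_of_mul_pos k1).1 h1
  have := mul_neg_of_neg_of_pos h2 k3
  linarith

/-- SEC: `x` in the sector `N3`, `y` in `N4` or `N5` -/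
lemma sec_b (hab : 0 < D s a b t) (xa : D s a t x < 0) (xb : D s b t x < 0)
    (ya : 0 < D s a t y) (yb : D s b t y < 0) : 0 < D s x y t := by
  have e : D s a b t * D s x y t = D s a t x * D s b t y - D s b t x * D s a t y := by
    simp only [D, dt]; ring
  have h1 := mul_pos_of_neg_of_neg xa yb
  have h2 := mul_neg_of_neg_of_pos xb ya
  have h3 : 0 < D s a b t * D s x y t := by linarith
  exact (pos_iff_pos_of_mul_pos h3).1 hab

/-- SEC: `y` in the sector `N4`, `x` in `N2` or `N3` -/
lemma sec_c (hca : 0 < D s c a t) (xa : D s a t x < 0) (xc : 0 < D s c t x)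
    (ya : 0 < D s a t y) (yc : 0 < D s c t y) : 0 < D s x y t := by
  have e : D s c a t * D s x y t = D s c t x * D s a t y - D s a t x * D s c t y := by
    simp only [D, dt]; ring
  have h1 := mul_pos xc ya
  have h2 := mul_neg_of_neg_of_pos xa yc
  have h3 : 0 < D s c a t * D s x y t := by linarith
  exact (pos_iff_pos_of_mul_pos h3).1 hca

end alg

end Pool.Agent.G5.Tri.TP
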